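import Pool.Agent.Helper59.ML.BIJ
import Pool.Agent.Helper29.L.K5
import Pool.Agent.SC.G1
import Pool.Agent.Helper17.FF.Transport
import Pool.Agent.Helper17.FF.PicDiv

/-!
# Project ML, block NR: the places are permuted, a totally ramified fixed place is rational
-/

set_option autoImplicit false

namespace Pool.Agent.ML

open VC IntermediateField NumberField IsDedekindDomain Pool.Agent.SC
open Pool.Agent.L (L0)
open Pool.Agent.M (Moves inL0 res59 mv59 res59_const res59_inL0 moves_iff59 phi_eq59)
open Pool.Agent.MP (jj jj_eq jj_const res_jj res_alg)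

noncomputable section

/-- **BLOCK NR.** -/
theorem nR : StmtNR := by
  intro k K0 E U _ _ _ _ _ _ _ _ _ _ _ _ n ℓ h r hn0 hℓ hℓn _ geo
  have hn : 2 ≤ n := hℓ.two_le.trans (Nat.le_of_dvd hn0 hℓn)
  have hcl : IsAlgClosed E := geo.clE
  have halg : Algebra.IsAlgebraic k E := geo.algE
  have hch : CharZero E := charZero_of_injective_algebraMap (algebraMap k E).injective
  have hgal : IsGalois k E := by
    have h1 : IsAlgClosure k E := ⟨hcl, halg⟩
    exact ⟨⟩
  have hff : IsFunctionField E (L0 E K0 (U := U)) := geo.ff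
  have hh0 := h_ne_zero hn geo
  have hjh : jj E K0 U h ≠ 0 := (map_ne_zero _).2 hh0
  refine ⟨?_, ?_⟩
  · refine (FF.finite_support_ord hff hjh).subset ?_
    intro b hb h0
    apply hb
    rw [← jj_eq, h0]
    exact dvd_zero _
  · intro c Φ hc hΦ'
    have hΦ := toL hΦ'
    refine ⟨fun σ b => ⟨mv59 hΦ σ b, (moves_iff59 hΦ σ b _).2 rfl, fun b' hb' =>
      (moves_iff59 hΦ σ b b').1 hb'⟩, ?_, ?_, ?_, ?_⟩
    · intro σ b b' hbb
      rw [moves_iff59 hΦ] at hbb
      subst hbb
      exact (ord_mv hff hΦ σ b).symm
    · intro c' Φ' _ hΦ'' σ b b'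
      have hΨ := toL hΦ''
      unfold Moves
      constructor
      · intro h1 x hx hx'
        have h2 := phi_eq59 hΦ hΨ σ hx
        have h3 := h1 x hx (by rw [h2]; exact hx')
        rw [h3]
        simp only [h2]
      · intro h1 x hx hx'
        have h2 := phi_eq59 hΦ hΨ σ hx
        have h3 := h1 x hx (by rw [← h2]; exact hx')
        rw [h3]
        simp only [h2]
    · intro b
      obtain ⟨n, hn⟩ := exists_pole hff (P0 := b) (FF.riemann hff)
      obtain ⟨t, ht, ht0, hto⟩ := hn (n + 1) (Nat.le_succ n)
      have htb : t ∉ b.ring := by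
        intro h1
        have h2 := (FF.ord_nonneg_iff hff b ht0).2 h1
        rw [hto] at h2
        push_cast at h2
        omega
      obtain ⟨L, hL1, hL2⟩ := hΦ.cont (t : U)
      refine ⟨L, hL1, fun σ hσ => ?_⟩
      rw [moves_iff59 hΦ]
      by_contra hne
      have h1 : t ∈ (mv59 hΦ σ b).ring := ht _ fun h2 => hne h2.symm
      have h2 : res59 hΦ σ t = t := Subtype.ext (hL2 σ hσ)
      rw [← h2] at h1
      exact htb ((FF.mem_img' (res59 hΦ σ) σ.toRingEquiv (res59_const hΦ σ) b t).1 h1)
    · intro hno b hb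
      by_contra hcon
      push Not at hcon
      apply hno
      refine ⟨b.ring.comap (jj E K0 U), fun a => ?_, fun x hx => ?_, fun d hd hd1 z hz => ?_⟩
      · rw [ValuationSubring.mem_comap, jj_const]
        exact b.algebraMap_mem _
      · obtain ⟨e, he⟩ := FF.exists_residue hff b (ValuationSubring.mem_comap.1 hx)
        have hfix : ∀ σ : E ≃ₐ[k] E, σ e = e := by
          intro σ
          have h1 := hcon σ
          rw [moves_iff59 hΦ] at h1
          have h2 : res59 hΦ σ (jj E K0 U x - algebraMap E _ e) ∈ b.ring.nonunits := by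
            rw [h1]
            exact (FF.nonunits_img (res59 hΦ σ) σ.toRingEquiv (res59_const hΦ σ) b _).2 he
          rw [map_sub, res_jj, res_alg] at h2
          exact FF.residue_unique b h2 he
        have hmem : e ∈ (⊥ : IntermediateField k E) := by
          rw [InfiniteGalois.mem_bot_iff_fixed]
          exact hfix
        obtain ⟨a, rfl⟩ := IntermediateField.mem_bot.1 hmem
        refine ⟨a, ?_⟩
        rw [← ValuationSubring.mem_nonunits_iff, MP.mem_nonunits_comap, map_sub, jj_const]
        exact he
      · exact hb d hd hd1 ((dvd_iff hff hh0 hΦ geo.normal b (by omega)).2 ⟨z, hz⟩)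

end

end Pool.Agent.ML
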