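import Pool.Agent.Helper59.ML.Act

/-!
# Project ML, block BIJ: the geometric points at which `h` is not a unit

The places of `L0 = E K0` at which `h` has nonzero order are the valuation rings of `K0` at which `h`
is not a unit, with an embedding of the residue field in `E`; the places are unramified over `K0`, so
the divisors of the order of `h` can be read off in `K0`.
-/

set_option autoImplicit false

namespace Pool.Agent.ML

open VC IntermediateField NumberField IsDedekindDomain Pool.Agent.SC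
open Pool.Agent.L (L0)
open Pool.Agent.M (Moves inL0 res59 mv59 res59_const res59_inL0 moves_iff59)
open Pool.Agent.MP (jj jj_eq jj_const res_jj res_alg exists_unif place_inj exists_place_phi)

noncomputable section

section

variable {k K0 E U : Type} [Field k] [Field K0] [Field E] [Field U] [Algebra k K0]
    [Algebra k E] [Algebra E U] [Algebra K0 U] {h : K0}

theorem gpt_ext {b b' : GPt k E h} (hP : ∀ x, x ∈ b.P ↔ x ∈ b'.P)
    (hφ : ∀ (x : K0) (hx : x ∈ b.P) (hx' : x ∈ b'.P), b.φ ⟨x, hx⟩ = b'.φ ⟨x, hx'⟩) : b = b' := by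
  obtain ⟨P, φ, h1, h2, h3⟩ := b
  obtain ⟨P', φ', h1', h2', h3'⟩ := b'
  obtain rfl : P = P' := SetLike.ext hP
  obtain rfl : φ = φ' := RingHom.ext fun x => hφ x x.2 x.2
  rfl

variable [IsAlgClosed E] (hff : IsFunctionField E (L0 E K0 (U := U)))

include hff in
/-- the valuation on `K0` below a place is one exactly if the order is zero -/
theorem val_one_iff (b : Place E (L0 E K0 (U := U))) {x : K0} (hx : x ≠ 0) :
    (b.ring.comap (jj E K0 U)).valuation x = 1 ↔ ord b.ring (jj E K0 U x) = 0 := by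
  have hj : jj E K0 U x ≠ 0 := (map_ne_zero _).2 hx
  have h1 : (b.ring.comap (jj E K0 U)).valuation x ≤ 1 ↔ 0 ≤ ord b.ring (jj E K0 U x) := by
    rw [ValuationSubring.valuation_le_one_iff, ValuationSubring.mem_comap,
      FF.ord_nonneg_iff hff b hj]
  have h2 : (b.ring.comap (jj E K0 U)).valuation x < 1 ↔ 0 < ord b.ring (jj E K0 U x) := by
    rw [← ValuationSubring.mem_nonunits_iff, MP.mem_nonunits_comap, FF.ord_pos_iff hff b hj]
  constructor
  · intro h3
    have h4 := h1.1 h3.le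
    have h5 := mt h2.2 (by rw [h3]; exact lt_irrefl _)
    omega
  · intro h3
    exact le_antisymm (h1.2 h3.ge) (not_lt.1 (mt h2.1 (by rw [h3]; exact lt_irrefl _)))

/-- the point below a place -/
def gp [Algebra k U] [IsScalarTower k E U] [IsScalarTower k K0 U] (hh0 : h ≠ 0)
    (b : {b : Place E (L0 E K0 (U := U)) // ord b.ring (inL0 h) ≠ 0}) : GPt k E h where
  P := b.1.ring.comap (jj E K0 U)
  φ := (FF.ev hff b.1).comp
    ((jj E K0 U).restrict (b.1.ring.comap (jj E K0 U)) b.1.ring fun _ hx => hx)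
  const := fun a => by
    rw [ValuationSubring.mem_comap, jj_const]
    exact b.1.algebraMap_mem _
  nt := fun h1 => b.2 ((val_one_iff hff b.1 hh0).1 h1)
  emb := fun a x hx => by
    rw [RingHom.comp_apply, FF.ev_eq_iff]
    change jj E K0 U (x : K0) - _ ∈ _
    rw [hx, jj_const, sub_self]
    exact zero_mem _

variable [Algebra k U] [IsScalarTower k E U] [IsScalarTower k K0 U] (hh0 : h ≠ 0)

theorem mem_gp (b : {b : Place E (L0 E K0 (U := U)) // ord b.ring (inL0 h) ≠ 0}) (x : K0) :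
    x ∈ (gp (k := k) hff hh0 b).P ↔ jj E K0 U x ∈ b.1.ring := Iff.rfl

theorem gp_phi (b : {b : Place E (L0 E K0 (U := U)) // ord b.ring (inL0 h) ≠ 0}) (x : K0)
    (hx : x ∈ (gp (k := k) hff hh0 b).P) (e : E) :
    (gp (k := k) hff hh0 b).φ ⟨x, hx⟩ = e ↔ jj E K0 U x - algebraMap E _ e ∈ b.1.ring.nonunits :=
  FF.ev_eq_iff hff b.1 ⟨jj E K0 U x, hx⟩ e

variable {r : U} {c : k} {Φ : (E ≃ₐ[k] E) →* (U ≃+* U)} (hΦ : L.Act (K0 := K0) r c Φ)

omit [Algebra k U] [IsScalarTower k E U] [IsScalarTower k K0 U] in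
include hff in
theorem ord_mv (g : E ≃ₐ[k] E) (b : Place E (L0 E K0 (U := U))) :
    ord (mv59 hΦ g b).ring (inL0 (E := E) (U := U) h) = ord b.ring (inL0 (E := E) (U := U) h) := by
  conv_lhs => rw [← res59_inL0 hΦ g h]
  exact FF.ord_img (res59 hΦ g) g.toRingEquiv (res59_const hΦ g) hff b _

theorem gp_mv (g : E ≃ₐ[k] E)
    (b : {b : Place E (L0 E K0 (U := U)) // ord b.ring (inL0 h) ≠ 0}) :
    gp (k := k) hff hh0 ⟨mv59 hΦ g b.1, by rw [ord_mv hff hΦ]; exact b.2⟩ =
      (gp (k := k) hff hh0 b).map g := by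
  have hm : ∀ x : K0, jj E K0 U x ∈ (mv59 hΦ g b.1).ring ↔ jj E K0 U x ∈ b.1.ring := by
    intro x
    conv_lhs => rw [← res_jj hΦ g x]
    exact FF.mem_img' (res59 hΦ g) _ (res59_const hΦ g) b.1 _
  refine gpt_ext (fun x => hm x) fun x hx hx' => ?_
  rw [gp_phi]
  change jj E K0 U x - algebraMap E _ (g ((gp (k := k) hff hh0 b).φ ⟨x, hx'⟩)) ∈ _
  have h1 := (gp_phi (k := k) hff hh0 b x hx' _).1 rfl
  have h2 := (FF.nonunits_img (res59 hΦ g) g.toRingEquiv (res59_const hΦ g) b.1 _).2 h1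
  rw [map_sub, res_jj, res_alg] at h2
  exact h2

include hΦ in
theorem gp_inj [IsGalois k E] (hn : Normal K0 U) :
    Function.Injective (gp (k := k) (h := h) (U := U) hff hh0) := by
  intro b b' hbb
  apply Subtype.ext
  have hP : ∀ x : K0, jj E K0 U x ∈ b.1.ring ↔ jj E K0 U x ∈ b'.1.ring := by
    intro x
    rw [← mem_gp (k := k) hff hh0, ← mem_gp (k := k) hff hh0, hbb]
  refine place_inj hn hff hΦ hP fun x e hx => ?_
  have hxb : jj E K0 U x ∈ b.1.ring := by
    have h1 := b.1.ring.add_mem _ _ (ValuationSubring.nonunits_subset hx) (b.1.algebraMap_mem e)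
    rwa [sub_add_cancel] at h1
  have h1 := (gp_phi (k := k) hff hh0 b x hxb e).2 hx
  have h2 : ∀ (B B' : GPt k E h), B = B' → ∀ (hx : x ∈ B.P) (hx' : x ∈ B'.P),
      B.φ ⟨x, hx⟩ = B'.φ ⟨x, hx'⟩ := by
    rintro B _ rfl _ _
    rfl
  have h3 := h2 _ _ hbb hxb ((hP x).1 hxb)
  rw [h1] at h3
  exact (gp_phi (k := k) hff hh0 b' x _ e).1 h3.symm

include hΦ in
theorem gp_surj [IsGalois k E] :
    Function.Surjective (gp (k := k) (h := h) (U := U) hff hh0) := by
  intro B
  have htop : B.P ≠ ⊤ := by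
    intro htop
    apply B.nt
    have h2 : h ∈ B.P := by rw [htop]; trivial
    have h3 : h⁻¹ ∈ B.P := by rw [htop]; trivial
    rw [← ValuationSubring.valuation_le_one_iff] at h2 h3
    rw [map_inv₀] at h3
    have h4 : B.P.valuation h ≠ 0 := (Valuation.ne_zero_iff _).2 hh0
    exact le_antisymm h2 ((inv_le_one₀ (zero_lt_iff.2 h4)).1 h3)
  obtain ⟨b, hb1, hb2⟩ := exists_place_phi (U := U) hΦ B.P htop B.const B.φ B.emb
  have hP : b.ring.comap (jj E K0 U) = B.P := SetLike.ext hb1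
  have hb : ord b.ring (inL0 h) ≠ 0 := by
    intro h1
    have h2 := (val_one_iff hff b hh0).2 h1
    rw [hP] at h2
    exact B.nt h2
  refine ⟨⟨b, hb⟩, gpt_ext (fun x => hb1 x) fun x hx hx' => ?_⟩
  rw [gp_phi]
  exact hb2 ⟨x, hx'⟩

include hff hh0 hΦ in
/-- the divisors of the order -/
theorem dvd_iff [IsGalois k E] (hn : Normal K0 U) (b : Place E (L0 E K0 (U := U))) {d : ℕ}
    (hd : 0 < d) : (d : ℤ) ∣ ord b.ring (inL0 h) ↔ ∃ z : K0,
      (b.ring.comap (jj E K0 U)).valuation h = (b.ring.comap (jj E K0 U)).valuation z ^ d := by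
  have hjh : jj E K0 U h ≠ 0 := (map_ne_zero _).2 hh0
  have key : ∀ z : K0, z ≠ 0 →
      ((b.ring.comap (jj E K0 U)).valuation h = (b.ring.comap (jj E K0 U)).valuation z ^ d ↔
        ord b.ring (inL0 h) = d * ord b.ring (jj E K0 U z)) := by
    intro z hz
    have hjz : jj E K0 U z ≠ 0 := (map_ne_zero _).2 hz
    have h1 := val_one_iff hff b (x := h / z ^ d) (div_ne_zero hh0 (pow_ne_zero _ hz))
    rw [map_div₀, map_pow, map_div₀, map_pow, FF.ord_div hff b hjh (pow_ne_zero _ hjz),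
      FF.ord_pow hff b hjz, div_eq_one_iff_eq
        (pow_ne_zero _ ((Valuation.ne_zero_iff _).2 hz)), jj_eq, sub_eq_zero] at h1
    exact h1
  constructor
  · rintro ⟨m, hm⟩
    obtain ⟨π, hπ0, hπ⟩ := exists_unif (k := k) hn hff hΦ b
    have hjπ : jj E K0 U π ≠ 0 := (map_ne_zero _).2 hπ0
    refine ⟨π ^ m, (key _ (zpow_ne_zero _ hπ0)).2 ?_⟩
    rw [map_zpow₀, FF.ord_zpow hff b hjπ, hπ, hm, mul_one]
  · rintro ⟨z, hz⟩
    have hz0 : z ≠ 0 := by
      rintro rfl
      rw [map_zero, zero_pow hd.ne', Valuation.zero_iff] at hz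
      exact hh0 hz
    exact ⟨_, (key z hz0).1 hz⟩

end

theorem h_ne_zero {k K0 E U : Type} [Field k] [Field K0] [Field E] [Field U] [Algebra k K0]
    [Algebra k E] [Algebra E U] [Algebra K0 U] [Algebra k U] {n : ℕ} {h : K0} {r : U} (hn : 2 ≤ n)
    (geo : LN.Geo k K0 E U n h r) : h ≠ 0 := by
  rintro rfl
  have h1 := geo.rpow
  rw [map_zero] at h1
  have h2 : r = 0 := (pow_eq_zero_iff (by omega)).1 h1
  refine geo.rnot 1 one_pos (by omega) ?_
  rw [h2, zero_pow one_ne_zero]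
  exact zero_mem _

/-- **BLOCK BIJ.** -/
theorem bIJ : StmtBIJ := by
  intro k K0 E U _ _ _ _ _ _ _ _ _ _ _ _ n h r hn geo c Φ _ hΦ'
  have hΦ := toL hΦ'
  have hcl : IsAlgClosed E := geo.clE
  have halg : Algebra.IsAlgebraic k E := geo.algE
  have hch : CharZero E := charZero_of_injective_algebraMap (algebraMap k E).injective
  have hgal : IsGalois k E := by
    have h1 : IsAlgClosure k E := ⟨hcl, halg⟩
    exact ⟨⟩
  have hh0 := h_ne_zero hn geo
  have hbij : Function.Bijective (gp (k := k) (h := h) (U := U) geo.ff hh0) :=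
    ⟨gp_inj geo.ff hh0 hΦ geo.normal, gp_surj geo.ff hh0 hΦ⟩
  refine ⟨Equiv.ofBijective _ hbij, fun g b b' => ?_, fun b d hd =>
    dvd_iff geo.ff hh0 hΦ geo.normal b.1 hd⟩
  rw [moves_iff59 hΦ]
  change _ ↔ (gp (k := k) geo.ff hh0 b).map g = gp (k := k) geo.ff hh0 b'
  rw [← gp_mv geo.ff hh0 hΦ g b]
  constructor
  · intro h1
    congr 1
    exact Subtype.ext h1.symm
  · intro h1
    exact (congrArg Subtype.val (gp_inj geo.ff hh0 hΦ geo.normal h1)).symm

end

end Pool.Agent.ML
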