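import Pool.Agent.Helper45.ML.Defs
import Pool.Agent.Helper59.MP.BIJ

/-!
# Project ML: the actions of project LN are actions in the sense of project L for the root `0`

Lemmas of projects L, M, MP about `L.Act r c Φ` which do not use the twist can be cited for
`LN.Act n r c Φ`.
-/

set_option autoImplicit false

namespace Pool.Agent.ML

variable {k K0 E U : Type} [Field k] [Field K0] [Field E] [Field U] [Algebra k K0]
    [Algebra k E] [Algebra E U] [Algebra K0 U] {n : ℕ} {r : U} {c : k}
    {Φ : (E ≃ₐ[k] E) →* (U ≃+* U)}

theorem toL (hΦ : LN.Act (K0 := K0) n r c Φ) : L.Act (K0 := K0) (0 : U) (0 : k) Φ where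
  const := hΦ.const
  fixK := hΦ.fixK
  tw := fun _ _ _ => by rw [map_zero, zero_mul, mul_zero]
  cont := hΦ.cont

end Pool.Agent.ML
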